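import Pool.Agent.Work.MP_a98e4e_ag.CF.Four.D

/-! # CF4, part e: assembly -/

set_option autoImplicit false

open Module

namespace LicciCF

namespace Dat

variable {k C B : Type*} [Field k] [CharZero k] [AddCommGroup C] [Module k C] [AddCommGroup B]
  [Module k B] [FiniteDimensional k C] [FiniteDimensional k B] {P : Dat k C B}

theorem anti (hP : P.IsPkg) (u w : B) : P.ω u w = -P.ω w u := by
  have h := hP.alt (u + w)
  simp only [map_add, LinearMap.add_apply, hP.alt, zero_add, add_zero] at h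
  exact eq_neg_of_add_eq_zero_right h

/-- `(1)` -/
theorem rel1 (hP : P.IsPkg) {ε : C} {a a' : C →ₗ[k] End k B}
    (ha : ∀ x ξ u, P.R x ξ u = P.R ε ξ (a x u)) (ha' : ∀ x u w, P.ω (a' x u) w = -P.ω u (a x w))
    (x : C) (ξ : Dual k C) (u : B) :
    a' x (P.R ε ξ u) + P.R ε ξ (a x u) = (2 * ξ x) • u + (2 * ξ ε) • a' x u := by
  rw [← sub_eq_zero]
  apply hP.nondeg
  intro w
  have h1 := ha' x (P.R ε ξ u) w
  have h2 := ha' x u w
  have h3 := hP.sp ε ξ u (a x w)
  have h4 := hP.sp x ξ u w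
  have h5 : P.ω u (P.R ε ξ (a x w)) = P.ω u (P.R x ξ w) := by rw [ha x ξ w]
  have h6 : P.ω (P.R ε ξ (a x u)) w = P.ω (P.R x ξ u) w := by rw [ha x ξ u]
  simp only [R_ap4, map_add, map_smul, LinearMap.add_apply, LinearMap.smul_apply,
    smul_eq_mul] at h1 h5 h6
  simp only [R_ap4, map_sub, map_add, map_smul, LinearMap.sub_apply, LinearMap.add_apply,
    LinearMap.smul_apply, smul_eq_mul]
  linear_combination h1 + h6 - (2 * ξ ε) * h2 - h3 + h4 + h5

/-- `(3'')` -/
theorem rel3a (hP : P.IsPkg) {δ : Dual k C →ₗ[k] B} {del : B →ₗ[k] C} (hd : P.IsDer δ del)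
    (x : C) (u : B) (ξ η : Dual k C) :
    η (P.S x (del u) ξ) = ξ (del (P.R x η u)) - η (del (P.R x ξ u)) := by
  have h1 := hd.dq x u ξ η
  have h2 := hP.sp x ξ (δ η) u
  have h3 := hP.sp x η (δ ξ) u
  have h4 := hd.adj η (P.σ x ξ u)
  have h5 := hd.adj ξ (P.σ x η u)
  simp only [R_ap4, map_add, map_smul, smul_eq_mul]
  linear_combination h1 + h2 - h3 + h4 - h5

theorem rel3b (hP : P.IsPkg) {ε : C} {a : C →ₗ[k] End k B}
    (ha : ∀ x ξ u, P.R x ξ u = P.R ε ξ (a x u))
    {δ : Dual k C →ₗ[k] B} {del : B →ₗ[k] C} (hd : P.IsDer δ del) (x : C) (u : B) :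
    P.S x (del u) = P.S ε (del (a x u)) := by
  apply LinearMap.ext
  intro ξ
  rw [← sub_eq_zero]
  refine (Module.forall_dual_apply_eq_zero_iff k _).1 fun η => ?_
  rw [map_sub, rel3a hP hd, rel3a hP hd, ha x η u, ha x ξ u, sub_self]

/-- `(3)` -/
theorem rel3 (hP : P.IsPkg) {ε : C} (hε : P.IsEps ε) {a a' : C →ₗ[k] End k B}
    (ha : ∀ x ξ u, P.R x ξ u = P.R ε ξ (a x u)) (ha' : ∀ x u w, P.ω (a' x u) w = -P.ω u (a x w))
    {δ : Dual k C →ₗ[k] B} {del : B →ₗ[k] C} (hd : P.IsDer δ del)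
    {br : C →ₗ[k] C →ₗ[k] C} (hbr : ∀ x y, P.S x y = P.S ε (br x y))
    (x : C) (ξ : Dual k C) (hξ : ξ ε = 0) : a' x (δ ξ) = -δ (ξ ∘ₗ br x) := by
  rw [← sub_eq_zero]
  apply hP.nondeg
  intro u
  have h1 := ha' x (δ ξ) u
  have h2 := hd.adj ξ (a x u)
  have h3 := hd.adj (ξ ∘ₗ br x) u
  obtain ⟨c, hc⟩ := hε.e1 (br x (del u) - del (a x u)) (by
    rw [map_sub, ← hbr, rel3b hP ha hd, sub_self])
  have h4 : ξ (br x (del u)) = ξ (del (a x u)) := by
    have := congrArg ξ hc
    rw [map_sub, map_smul, hξ, smul_zero] at this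
    exact sub_eq_zero.1 this
  rw [LinearMap.comp_apply] at h3
  simp only [map_sub, map_neg, LinearMap.sub_apply, LinearMap.neg_apply]
  linear_combination h1 + h2 - h3 + h4

/-- the functional `y ↦ tr (br y)` -/
noncomputable def tbr (br : C →ₗ[k] C →ₗ[k] C) : Dual k C := (LinearMap.trace k C) ∘ₗ br

theorem theta_step {ι : Type} [Fintype ι] (e : Basis ι k C) (hcard : Fintype.card ι = 12)
    {ε : C} {a a' : C →ₗ[k] End k B} {b : Dual k C →ₗ[k] End k B}
    (h1 : ∀ (x : C) (ξ : Dual k C) (u : B),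
      a' x (b ξ u) + b ξ (a x u) = (2 * ξ x) • u + (2 * ξ ε) • a' x u)
    (ha'ε : a' ε = -1) (h2 : ∀ u : B, ∑ i, b (e.coord i) (a (e i) u) = (12 : k) • u)
    {δ : Dual k C →ₗ[k] B} {v : B} (hδ : ∀ η, δ η = b η v) {θ : Dual k C} (hθ : θ ε = 1)
    {br : C →ₗ[k] C →ₗ[k] C} (hθbr : ∀ x y, θ (br x y) = 0) (hself : ∀ x, br x x = 0)
    (h3 : ∀ (x : C) (ξ : Dual k C), ξ ε = 0 → a' x (δ ξ) = -δ (ξ ∘ₗ br x)) :
    δ (tbr br - θ) = (10 : k) • v := by
  have hanti : ∀ x y, br x y = -br y x := by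
    intro x y
    have h := hself (x + y)
    simp only [map_add, LinearMap.add_apply, hself, zero_add, add_zero] at h
    exact eq_neg_of_add_eq_zero_right h
  have s1 : ∑ i, a' (e i) (δ (e.coord i)) - a' ε (δ θ) = δ (tbr br) := by
    have e1 : ∀ i, a' (e i) (δ (e.coord i)) = e.coord i ε • a' (e i) (δ θ) -
        δ ((e.coord i) ∘ₗ br (e i)) := by
      intro i
      have h := h3 (e i) (e.coord i - e.coord i ε • θ) (by
        rw [LinearMap.sub_apply, LinearMap.smul_apply, hθ, smul_eq_mul, mul_one, sub_self])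
      have h0 : (e.coord i - e.coord i ε • θ) ∘ₗ br (e i) = (e.coord i) ∘ₗ br (e i) := by
        apply LinearMap.ext
        intro y
        simp only [LinearMap.comp_apply, LinearMap.sub_apply, LinearMap.smul_apply, hθbr,
          smul_zero, sub_zero]
      rw [h0, map_sub, map_smul, map_sub, map_smul] at h
      rw [sub_eq_iff_eq_add] at h
      rw [h]
      abel
    rw [Finset.sum_congr rfl (fun i _ => e1 i), Finset.sum_sub_distrib]
    have e2 : ∑ i, e.coord i ε • a' (e i) (δ θ) = a' ε (δ θ) := by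
      have := sum_coord e (a'.flip (δ θ)) ε
      simpa only [LinearMap.flip_apply] using this
    have e3 : ∑ i, δ ((e.coord i) ∘ₗ br (e i)) = -δ (tbr br) := by
      rw [← map_sum, ← map_neg]
      congr 1
      apply LinearMap.ext
      intro z
      rw [LinearMap.sum_apply, LinearMap.neg_apply, tbr, LinearMap.comp_apply, tr_eq e,
        ← Finset.sum_neg_distrib]
      refine Finset.sum_congr rfl fun i _ => ?_
      rw [LinearMap.comp_apply, hanti (e i) z, map_neg]
    rw [e2, e3]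
    abel
  have s2 : ∑ i, a' (e i) (δ (e.coord i)) = (10 : k) • v := by
    have e1 : ∀ i, a' (e i) (δ (e.coord i)) = (2 : k) • v + (2 : k) • (e.coord i ε • a' (e i) v) -
        b (e.coord i) (a (e i) v) := by
      intro i
      have h := h1 (e i) (e.coord i) v
      have hii : e.coord i (e i) = 1 := by simp
      rw [hii, mul_one, ← hδ] at h
      rw [smul_smul, ← h]
      abel
    have f6 : ∑ i, e.coord i ε • a' (e i) v = -v := by
      have := sum_coord e (a'.flip v) ε
      simp only [LinearMap.flip_apply] at this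
      rw [this, ha'ε]
      rfl
    have f7 : ∑ i, (2 : k) • (e.coord i ε • a' (e i) v) = (2 : k) • -v := by
      rw [← Finset.smul_sum, f6]
    rw [Finset.sum_congr rfl (fun i _ => e1 i), Finset.sum_sub_distrib, Finset.sum_add_distrib, h2,
      f7, Finset.sum_const, Finset.card_univ, hcard]
    module
  rw [map_sub, ← s1, s2, ha'ε]
  simp only [LinearMap.neg_apply, Module.End.one_apply]
  abel

theorem exists_core (hP : P.IsPkg) {ε : C} (hε : P.IsEps ε) {ι : Type} [Fintype ι]
    (e : Basis ι k C) (hcard : Fintype.card ι = 12)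
    (htau : ∑ i, P.σ (e i) (e.coord i) = 0)
    (hT : ∑ i, P.T (e i) (e.coord i) = (12 : k) • LinearMap.id)
    {δ : Dual k C →ₗ[k] B} {del : B →ₗ[k] C} (hd : P.IsDer δ del)
    (hinj : Function.Injective δ) :
    ∃ Q : Core4 k C B e, Q.δ = δ ∧ Q.ε = ε ∧ (∀ ξ, Q.b ξ = P.R ε ξ) ∧
      ∀ x ξ u, P.R x ξ u = P.R ε ξ (Q.a x u) := by
  have h12 : (12 : k) ≠ 0 := by norm_num
  have h10 : (10 : k) ≠ 0 := by norm_num
  have hn : finrank k C = 12 := by rw [finrank_eq_card_basis e, hcard]
  have hR : ∀ u : B, ∑ i, P.R (e i) (e.coord i) u = (12 : k) • u := by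
    intro u
    have h1 : ∀ i, P.R (e i) (e.coord i) u = u + P.σ (e i) (e.coord i) u := by
      intro i
      rw [R_ap4]
      simp
    rw [Finset.sum_congr rfl (fun i _ => h1 i), Finset.sum_add_distrib, Finset.sum_const,
      Finset.card_univ, hcard, ← LinearMap.sum_apply, htau, LinearMap.zero_apply, add_zero]
    module
  obtain ⟨a, ha⟩ := exists_a e hP hR hε
  obtain ⟨a', ha'⟩ := exists_a' hP a
  let b : Dual k C →ₗ[k] End k B := P.Rl ε
  have hb : ∀ ξ u, b ξ u = P.R ε ξ u := fun ξ u => rfl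
  have h1 : ∀ (x : C) (ξ : Dual k C) (u : B),
      a' x (b ξ u) + b ξ (a x u) = (2 * ξ x) • u + (2 * ξ ε) • a' x u :=
    fun x ξ u => rel1 hP ha ha' x ξ u
  have haε : a ε = 1 := by
    apply LinearMap.ext
    intro u
    rw [Module.End.one_apply, ← sub_eq_zero]
    refine R_inj e hP hR hε fun ξ => ?_
    rw [map_sub, ← ha, sub_self]
  have ha'ε : a' ε = -1 := by
    apply LinearMap.ext
    intro u
    rw [← sub_eq_zero]
    apply hP.nondeg
    intro w
    rw [map_sub, LinearMap.sub_apply, ha', haε]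
    simp
  have h2 : ∀ u : B, ∑ i, b (e.coord i) (a (e i) u) = (12 : k) • u := by
    intro u
    rw [← hR u]
    exact Finset.sum_congr rfl fun i _ => (ha (e i) (e.coord i) u).symm
  -- the vector `v`
  set v : B := (12 : k)⁻¹ • ∑ i, a (e i) (δ (e.coord i)) with hv
  have hδ : ∀ η, δ η = b η v := by
    intro η
    have h3 : ∑ i, (P.σ (e i) (e.coord i) (δ η) + δ (η ∘ₗ P.T (e i) (e.coord i))) =
        ∑ i, P.R (e i) η (δ (e.coord i)) := Finset.sum_congr rfl fun i _ => dd hP hd _ _ _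
    rw [Finset.sum_add_distrib, ← LinearMap.sum_apply, htau, LinearMap.zero_apply, zero_add,
      ← map_sum] at h3
    have h4 : ∑ i, η ∘ₗ P.T (e i) (e.coord i) = (12 : k) • η := by
      apply LinearMap.ext
      intro y
      rw [LinearMap.sum_apply]
      simp only [LinearMap.comp_apply]
      rw [← map_sum, ← LinearMap.sum_apply, hT]
      simp
    rw [h4, map_smul] at h3
    have h5 : ∑ i, P.R (e i) η (δ (e.coord i)) = b η (∑ i, a (e i) (δ (e.coord i))) := by
      rw [map_sum]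
      exact Finset.sum_congr rfl fun i _ => ha (e i) η (δ (e.coord i))
    rw [h5] at h3
    rw [hv, map_smul, ← h3, smul_smul, inv_mul_cancel₀ h12, one_smul]
  -- the functional `θ`
  obtain ⟨θ₀, hθ₀⟩ : ∃ θ₀ : Dual k C, θ₀ ε = 1 := by
    obtain ⟨f, hf⟩ : ∃ f : Dual k C, f ε ≠ 0 := by
      by_contra hcon
      push Not at hcon
      exact hε.ne ((Module.forall_dual_apply_eq_zero_iff k ε).1 hcon)
    exact ⟨(f ε)⁻¹ • f, by rw [LinearMap.smul_apply, smul_eq_mul, inv_mul_cancel₀ hf]⟩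
  have htr : ∀ (θ : Dual k C), θ ε = 1 → ∀ br : C →ₗ[k] C →ₗ[k] C, (∀ y, br ε y = y - θ y • ε) →
      tbr br ε = 11 := by
    intro θ hθ br hbr
    have : br ε = LinearMap.id - θ.smulRight ε := by
      apply LinearMap.ext
      intro y
      rw [hbr]
      simp
    rw [tbr, LinearMap.comp_apply, this, map_sub, LinearMap.trace_id, LinearMap.trace_smulRight,
      hθ, hn]
    norm_num
  obtain ⟨br₀, hb01, hb02, hb03, hb04⟩ := exists_br hP hε hθ₀
  have hs0 := theta_step e hcard h1 ha'ε h2 hδ hθ₀ hb02 hb03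
    (fun x ξ hξ => rel3 hP hε ha ha' hd hb01 x ξ hξ)
  set θ : Dual k C := (10 : k)⁻¹ • (tbr br₀ - θ₀) with hθdef
  have hθε : θ ε = 1 := by
    rw [hθdef, LinearMap.smul_apply, LinearMap.sub_apply, htr θ₀ hθ₀ br₀ hb04, hθ₀, smul_eq_mul]
    norm_num
  have hδθ : δ θ = v := by
    rw [hθdef, map_smul, hs0, smul_smul, inv_mul_cancel₀ h10, one_smul]
  obtain ⟨br, hb1, hb2, hb3, hb4⟩ := exists_br hP hε hθε
  have h3 := fun x ξ hξ => rel3 hP hε ha ha' hd hb1 x ξ hξ
  have hs1 := theta_step e hcard h1 ha'ε h2 hδ hθε hb2 hb3 h3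
  have ht11 : tbr br = (11 : k) • θ := by
    have : tbr br - θ = (10 : k) • θ := by
      apply hinj
      rw [hs1, map_smul, hδθ]
    rw [sub_eq_iff_eq_add] at this
    rw [this]
    module
  let ad : C →ₗ[k] C →ₗ[k] C := LinearMap.mk₂ k (fun x y => br x y - θ x • y + θ y • x)
    (fun x x' y => by simp only [map_add, LinearMap.add_apply]; module)
    (fun c x y => by simp only [map_smul, LinearMap.smul_apply, smul_eq_mul]; module)
    (fun x y y' => by simp only [map_add]; module)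
    (fun c x y => by simp only [map_smul, smul_eq_mul]; module)
  have had : ∀ x y, ad x y = br x y - θ x • y + θ y • x := fun x y => rfl
  let J : C →ₗ[k] C := LinearMap.id - P.T ε θ
  have hJ : ∀ y, J y = y - (2 * θ y) • ε + y + P.S ε y θ := by
    intro y
    simp only [J, T, LinearMap.sub_apply, LinearMap.smul_apply, LinearMap.smulRight_apply,
      LinearMap.id_apply, LinearMap.flip_apply, hθε]
    module
  refine ⟨⟨a, a', b, δ, v, ε, θ, ad, J, h1, haε, ha'ε, h2, hδ, hinj, hθε, hδθ, ?_, ?_, ?_, ?_, ?_,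
    ?_, ?_, ?_⟩, rfl, rfl, fun ξ => rfl, ha⟩
  · intro x
    rw [had, hb3]
    module
  · intro x y
    rw [had, map_add, map_sub, hb2, map_smul, map_smul, smul_eq_mul, smul_eq_mul]
    ring
  · apply LinearMap.ext
    intro y
    rw [had, hb4, hθε, LinearMap.zero_apply]
    module
  · intro x
    have : ad x = br x - θ x • LinearMap.id + θ.smulRight x := by
      apply LinearMap.ext
      intro y
      rw [had]
      simp
    rw [this, map_add, map_sub, map_smul, LinearMap.trace_id, LinearMap.trace_smulRight, hn]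
    have h4 : LinearMap.trace k C (br x) = 11 * θ x := by
      have := congrArg (fun f : Dual k C => f x) ht11
      simpa [tbr] using this
    rw [h4, smul_eq_mul]
    norm_num
    ring
  · intro x f hf
    have h4 : f ∘ₗ br x = f ∘ₗ ad x + θ x • f - f x • θ := by
      apply LinearMap.ext
      intro y
      simp only [LinearMap.comp_apply, LinearMap.add_apply, LinearMap.sub_apply,
        LinearMap.smul_apply, smul_eq_mul, had, map_add, map_sub, map_smul]
      ring
    rw [h3 x f hf, h4, map_sub, map_add, map_smul, map_smul, hδθ]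
    abel
  · rw [hJ, hθε, hP.S_alt, LinearMap.zero_apply]
    module
  · intro y
    have h4 := hP.S_skew ε y θ θ
    have h5 : θ (P.S ε y θ) = 0 := by
      have : (2 : k) * θ (P.S ε y θ) = 0 := by linear_combination h4
      exact (mul_eq_zero.1 this).resolve_left two_ne_zero
    rw [hJ, map_add, map_add, map_sub, map_smul, hθε, h5, smul_eq_mul]
    ring
  · intro η
    have h4 := dd hP hd ε θ η
    have h5 : b θ (δ η) = δ η + P.σ ε θ (δ η) := by
      rw [hb, R_ap4, hθε, one_smul]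
    have h6 : η ∘ₗ J = η - η ∘ₗ P.T ε θ := by
      apply LinearMap.ext
      intro y
      simp [J]
    rw [hδθ] at h4
    have h7 : P.R ε η v = δ η := (hδ η).symm
    rw [h7] at h4
    have h8 := eq_sub_of_add_eq h4
    rw [h5, h6, map_sub, h8]

/-- stability of the range of `δ` under the operators `a` -/
theorem stab (hP : P.IsPkg) {ε : C} (hε : P.IsEps ε) {ι : Type} [Fintype ι]
    (e : Basis ι k C) (hcard : Fintype.card ι = 12)
    (hR : ∀ u : B, ∑ i, P.R (e i) (e.coord i) u = (12 : k) • u)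
    (Q : Core4 k C B e) (hQb : ∀ ξ, Q.b ξ = P.R ε ξ)
    (hQa : ∀ x ξ u, P.R x ξ u = P.R ε ξ (Q.a x u)) (x : C) (u : B)
    (hu : u ∈ LinearMap.range Q.δ) : Q.a x u ∈ LinearMap.range Q.δ := by
  set V := LinearMap.range Q.δ with hV
  have hmem : ∀ x ξ, ∀ u ∈ V, P.R x ξ u ∈ V := by
    rintro x ξ _ ⟨η, rfl⟩
    rw [hQa, ← hQb]
    exact Q.mem_ba hcard x ξ η
  let Rr : C → Dual k C → (V →ₗ[k] V) := fun x ξ => (P.R x ξ).restrict (hmem x ξ)
  have hRr : ∀ x ξ (u : V), ((Rr x ξ u : V) : B) = P.R x ξ (u : B) := fun x ξ u => rfl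
  have hB1 : ∀ (x : C) (l : ι) (u : V), ∑ j, Rr (e j) (e.coord l) (Rr x (e.coord j) u) =
      (12 : k) • Rr x (e.coord l) u := by
    intro x l u
    apply Subtype.ext
    have h := congrArg (fun f : B →ₗ[k] B => f (u : B)) (hP.d1 ι e x (e.coord l))
    simp only [LinearMap.sum_apply, LinearMap.comp_apply, LinearMap.smul_apply] at h
    rw [AddSubmonoidClass.coe_finsetSum]
    simp only [hRr, Submodule.coe_smul]
    exact h
  have hr := Blk_rank (fun i j => Rr (e i) (e.coord j)) (fun i l u => hB1 (e i) l u) (by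
    intro u
    apply Subtype.ext
    rw [AddSubmonoidClass.coe_finsetSum]
    simp only [hRr, Submodule.coe_smul]
    exact hR u)
  let jj : V →ₗ[k] (ι → V) := LinearMap.pi (fun j => Rr ε (e.coord j))
  have hjj : ∀ u j, jj u j = Rr ε (e.coord j) u := fun u j => rfl
  have hsum : ∀ (x : C) (u : B) (ξ : Dual k C), P.R x ξ u = ∑ j, ξ (e j) • P.R x (e.coord j) u := by
    intro x u ξ
    have := sum_dual e ((P.Rl x).flip u) ξ
    simp only [LinearMap.flip_apply, Rl_apply] at this
    exact this.symm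
  have hjinj : Function.Injective jj := by
    rw [← LinearMap.ker_eq_bot, LinearMap.ker_eq_bot']
    intro u hu
    apply Subtype.ext
    refine R_inj e hP hR hε (w := (u : B)) fun ξ => ?_
    rw [hsum]
    refine Finset.sum_eq_zero fun j _ => ?_
    have h1 := congrArg (fun f : ι → V => ((f j : V) : B)) hu
    simp only [hjj, hRr, Pi.zero_apply, ZeroMemClass.coe_zero] at h1
    rw [h1, smul_zero]
  have hBlk : ∀ (x : C) (u : V), Blk (fun i j => Rr (e i) (e.coord j)) (fun i => Rr x (e.coord i) u) =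
      (12 : k) • fun j => Rr x (e.coord j) u := by
    intro x u
    funext l
    rw [Blk_apply, Pi.smul_apply]
    exact hB1 x l u
  have h12 : (12 : k) ≠ 0 := by norm_num
  have hin : ∀ (x : C) (u : V), (fun j => Rr x (e.coord j) u) ∈
      LinearMap.range (Blk (fun i j => Rr (e i) (e.coord j))) := by
    intro x u
    refine ⟨(12 : k)⁻¹ • (fun i => Rr x (e.coord i) u), ?_⟩
    rw [map_smul, hBlk, smul_smul, inv_mul_cancel₀ h12, one_smul]
  have hsub : LinearMap.range jj ≤ LinearMap.range (Blk (fun i j => Rr (e i) (e.coord j))) := by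
    rintro _ ⟨u, rfl⟩
    exact hin ε u
  have heq : LinearMap.range jj = LinearMap.range (Blk (fun i j => Rr (e i) (e.coord j))) := by
    apply Submodule.eq_of_le_of_finrank_eq hsub
    rw [hr]
    exact LinearMap.finrank_range_of_inj hjinj
  have h1 := hin x ⟨u, hu⟩
  rw [← heq] at h1
  obtain ⟨w, hw⟩ := h1
  have h2 : Q.a x u - (w : B) = 0 := by
    refine R_inj e hP hR hε fun ξ => ?_
    rw [map_sub, ← hQa, hsum x u ξ, hsum ε w ξ, ← Finset.sum_sub_distrib]
    refine Finset.sum_eq_zero fun j _ => ?_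
    have h3 := congrArg (fun f : ι → V => ((f j : V) : B)) hw
    simp only [hjj, hRr] at h3
    rw [h3, sub_self]
  rw [sub_eq_zero.1 h2]
  exact w.2

/-- CF4 from the two sums of CF1 -/
theorem exists_clifford_of (hP : P.IsPkg) {ε : C} (hε : P.IsEps ε) {ι : Type} [Fintype ι]
    (e : Basis ι k C) (hcard : Fintype.card ι = 12)
    (htau : ∑ i, P.σ (e i) (e.coord i) = 0)
    (hT : ∑ i, P.T (e i) (e.coord i) = (12 : k) • LinearMap.id)
    {δ : Dual k C →ₗ[k] B} {del : B →ₗ[k] C} (hd : P.IsDer δ del)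
    (hinj : Function.Injective δ) :
    ∃ (W : Submodule k C) (K : W →ₗ[k] W →ₗ[k] k) (Tw : W →ₗ[k] (C →ₗ[k] C)),
      finrank k W = 11 ∧ (∀ w, (∀ w', K w w' = 0) → w = 0) ∧
      (∀ w w', K w w' = K w' w) ∧ ∀ w, Tw w ∘ₗ Tw w = K w w • LinearMap.id := by
  obtain ⟨Q, -, -, hb, ha⟩ := exists_core hP hε e hcard htau hT hd hinj
  have hR : ∀ u : B, ∑ i, P.R (e i) (e.coord i) u = (12 : k) • u := by
    intro u
    rw [← Q.h2 u]
    refine Finset.sum_congr rfl fun i _ => ?_
    rw [ha (e i) (e.coord i) u, ← hb]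
  exact Q.exists_W hcard (fun x u hu => stab hP hε e hcard hR Q hb ha x u hu)

end Dat

end LicciCF
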