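import Pool.Agent.Work.MP_a98e4e_ag.CF.Defs

/-! # CF4, part a: linear algebra preliminaries -/

set_option autoImplicit false

open Module

namespace LicciCF

section Prelim

variable {k : Type*} [Field k] {C : Type*} [AddCommGroup C] [Module k C] {ι : Type*} [Fintype ι]

theorem tr_eq (e : Basis ι k C) (A : C →ₗ[k] C) :
    LinearMap.trace k C A = ∑ i, e.coord i (A (e i)) := by
  classical
  rw [LinearMap.trace_eq_matrix_trace k e, Matrix.trace]
  simp [LinearMap.toMatrix_apply, Matrix.diag]

theorem sum_coord (e : Basis ι k C) {M : Type*} [AddCommGroup M] [Module k M] (F : C →ₗ[k] M)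
    (x : C) : ∑ i, e.coord i x • F (e i) = F x := by
  simp_rw [← map_smul]
  rw [← map_sum]
  congr 1
  exact e.sum_repr x

theorem sum_dual (e : Basis ι k C) {M : Type*} [AddCommGroup M] [Module k M]
    (G : Dual k C →ₗ[k] M) (ξ : Dual k C) : ∑ i, ξ (e i) • G (e.coord i) = G ξ := by
  simp_rw [← map_smul]
  rw [← map_sum, Basis.sum_dual_apply_smul_coord]

/-- block operator -/
def Blk {B : Type*} [AddCommGroup B] [Module k B] (Rr : ι → ι → (B →ₗ[k] B)) :
    (ι → B) →ₗ[k] (ι → B) :=
  LinearMap.pi (fun j => ∑ i, Rr i j ∘ₗ LinearMap.proj i)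

theorem Blk_apply {B : Type*} [AddCommGroup B] [Module k B] (Rr : ι → ι → (B →ₗ[k] B))
    (u : ι → B) (j : ι) : Blk Rr u j = ∑ i, Rr i j (u i) := by
  simp [Blk]

theorem trace_Blk {B : Type*} [AddCommGroup B] [Module k B] [FiniteDimensional k B]
    (Rr : ι → ι → (B →ₗ[k] B)) :
    LinearMap.trace k (ι → B) (Blk Rr) = ∑ i, LinearMap.trace k B (Rr i i) := by
  classical
  have h : Blk Rr = ∑ j, ∑ i, (LinearMap.single k (fun _ => B) j) ∘ₗ
      ((Rr i j) ∘ₗ (LinearMap.proj i : (ι → B) →ₗ[k] B)) := by
    apply LinearMap.ext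
    intro u
    funext l
    rw [Blk_apply]
    simp only [LinearMap.sum_apply, LinearMap.comp_apply, Finset.sum_apply, LinearMap.proj_apply,
      LinearMap.single_apply]
    symm
    rw [Finset.sum_eq_single l]
    · refine Finset.sum_congr rfl fun i _ => ?_
      rw [Pi.single_eq_same]
    · intro j _ hj
      refine Finset.sum_eq_zero fun i _ => ?_
      rw [Pi.single_eq_of_ne (Ne.symm hj)]
    · intro hl
      exact absurd (Finset.mem_univ l) hl
  rw [h, map_sum]
  refine Finset.sum_congr rfl fun j _ => ?_
  rw [map_sum, Finset.sum_eq_single j]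
  · rw [LinearMap.trace_comp_comm', LinearMap.comp_assoc]
    congr 1
    apply LinearMap.ext
    intro u
    simp
  · intro i _ hi
    rw [LinearMap.trace_comp_comm', LinearMap.comp_assoc]
    have : (LinearMap.proj i : (ι → B) →ₗ[k] B) ∘ₗ (LinearMap.single k (fun _ => B) j) = 0 := by
      apply LinearMap.ext
      intro u
      simp [Pi.single_eq_of_ne hi]
    rw [this, LinearMap.comp_zero, map_zero]
  · intro hl
    exact absurd (Finset.mem_univ j) hl

theorem idem_rank [CharZero k] {V : Type*} [AddCommGroup V] [Module k V] [FiniteDimensional k V]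
    (E : V →ₗ[k] V) (hE : ∀ u, E (E u) = (12 : k) • E u) (r : ℕ)
    (htr : LinearMap.trace k V E = 12 * (r : k)) : finrank k (LinearMap.range E) = r := by
  have h12 : (12 : k) ≠ 0 := by norm_num
  have hp : LinearMap.IsProj (LinearMap.range E) ((12 : k)⁻¹ • E) := by
    constructor
    · intro x
      rw [LinearMap.smul_apply]
      exact Submodule.smul_mem _ _ (LinearMap.mem_range_self E x)
    · rintro x ⟨y, rfl⟩
      rw [LinearMap.smul_apply, hE, smul_smul, inv_mul_cancel₀ h12, one_smul]
  have h1 := hp.trace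
  rw [map_smul, htr, smul_eq_mul, ← mul_assoc, inv_mul_cancel₀ h12, one_mul] at h1
  exact_mod_cast h1.symm

/-- A surjection onto a space of the same dimension is injective. -/
theorem inj_of_onto {V W : Type*} [AddCommGroup V] [Module k V] [FiniteDimensional k V]
    [AddCommGroup W] [Module k W] [FiniteDimensional k W] (f : V →ₗ[k] W)
    (h : finrank k (LinearMap.range f) = finrank k V) : Function.Injective f := by
  rw [← LinearMap.ker_eq_bot]
  have h1 := LinearMap.finrank_range_add_finrank_ker f
  have h2 : finrank k (LinearMap.ker f) = 0 := by omega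
  exact Submodule.finrank_eq_zero.1 h2

end Prelim

end LicciCF
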