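import Pool.Agent.Work.MP_a98e4e_ag.CF.Four.A

/-! # CF4, part b: the abstract core (steps 3-5) -/

set_option autoImplicit false

open Module

namespace LicciCF

/-- The data of steps 3-5. -/
structure Core4 (k C B : Type*) [Field k] [AddCommGroup C] [Module k C] [AddCommGroup B] [Module k B]
    {ι : Type*} [Fintype ι] (e : Basis ι k C) where
  a : C →ₗ[k] End k B
  a' : C →ₗ[k] End k B
  b : Dual k C →ₗ[k] End k B
  δ : Dual k C →ₗ[k] B
  v : B
  ε : C
  θ : Dual k C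
  ad : C →ₗ[k] C →ₗ[k] C
  J : C →ₗ[k] C
  h1 : ∀ (x : C) (ξ : Dual k C) (u : B), a' x (b ξ u) + b ξ (a x u) = (2 * ξ x) • u + (2 * ξ ε) • a' x u
  aε : a ε = 1
  a'ε : a' ε = -1
  h2 : ∀ u : B, ∑ i, b (e.coord i) (a (e i) u) = (12 : k) • u
  hδ : ∀ η, δ η = b η v
  inj : Function.Injective δ
  θε : θ ε = 1
  δθ : δ θ = v
  ad_self : ∀ x, ad x x = 0
  θad : ∀ x y, θ (ad x y) = 0
  adε : ad ε = 0
  tr_ad : ∀ x, LinearMap.trace k C (ad x) = 0
  hA : ∀ x f, f ε = 0 → a' x (δ f) = f x • v - θ x • δ f - δ (f ∘ₗ ad x)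
  Jε : J ε = 0
  θJ : ∀ x, θ (J x) = 0
  hD : ∀ η, b θ (δ η) = δ η + δ (η ∘ₗ J)

namespace Core4

variable {k C B : Type*} [Field k] [AddCommGroup C] [Module k C] [AddCommGroup B]
  [Module k B] {ι : Type*} [Fintype ι] {e : Basis ι k C} (Q : Core4 k C B e)

theorem ad_anti (x y : C) : Q.ad x y = -Q.ad y x := by
  have h := Q.ad_self (x + y)
  simp only [map_add, LinearMap.add_apply, Q.ad_self, zero_add, add_zero] at h
  exact eq_neg_of_add_eq_zero_right h

theorem ad_ε (x : C) : Q.ad x Q.ε = 0 := by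
  rw [Q.ad_anti, Q.adε, LinearMap.zero_apply, neg_zero]

theorem bθv : Q.b Q.θ Q.v = Q.v := by
  rw [← Q.hδ, Q.δθ]

theorem hA_all (x : C) (ξ : Dual k C) : Q.a' x (Q.δ ξ) =
    ξ Q.ε • Q.a' x Q.v + ξ x • Q.v - Q.θ x • Q.δ ξ - Q.δ (ξ ∘ₗ Q.ad x) := by
  set f : Dual k C := ξ - ξ Q.ε • Q.θ with hf
  have hfε : f Q.ε = 0 := by
    rw [hf, LinearMap.sub_apply, LinearMap.smul_apply, Q.θε, smul_eq_mul, mul_one, sub_self]
  have h := Q.hA x f hfε
  have h3 : f ∘ₗ Q.ad x = ξ ∘ₗ Q.ad x := by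
    apply LinearMap.ext
    intro y
    simp only [hf, LinearMap.comp_apply, LinearMap.sub_apply, LinearMap.smul_apply, Q.θad,
      smul_zero, sub_zero]
  have h4 : Q.δ f = Q.δ ξ - ξ Q.ε • Q.v := by
    rw [hf, map_sub, map_smul, Q.δθ]
  have h5 : f x = ξ x - ξ Q.ε * Q.θ x := by
    rw [hf, LinearMap.sub_apply, LinearMap.smul_apply, smul_eq_mul]
  rw [h3, h4, h5, map_sub, map_smul] at h
  have h6 : Q.a' x (Q.δ ξ) = ξ Q.ε • Q.a' x Q.v + ((ξ x - ξ Q.ε * Q.θ x) • Q.v -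
      Q.θ x • (Q.δ ξ - ξ Q.ε • Q.v) - Q.δ (ξ ∘ₗ Q.ad x)) := by
    rw [← h]
    abel
  rw [h6]
  module

theorem hC {w : C} (hw : Q.θ w = 0) (u : B) :
    Q.b Q.θ (Q.a w u) = (2 : k) • Q.a' w u - Q.a' w (Q.b Q.θ u) := by
  have h := Q.h1 w Q.θ u
  rw [hw, Q.θε, mul_zero, zero_smul, zero_add, mul_one] at h
  rw [← h]
  abel

theorem a'v {w : C} (hw : Q.θ w = 0) : Q.b Q.θ (Q.a w Q.v) = Q.a' w Q.v := by
  rw [Q.hC hw, Q.bθv]
  module

theorem hB {w : C} (hw : Q.θ w = 0) (ξ : Dual k C) : Q.b ξ (Q.a w Q.v) =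
    ξ Q.ε • Q.a' w Q.v + ξ w • Q.v + Q.δ (ξ ∘ₗ Q.ad w) := by
  have h := Q.h1 w ξ Q.v
  rw [← Q.hδ, Q.hA_all, hw, zero_smul, sub_zero] at h
  have h2 : Q.b ξ (Q.a w Q.v) = (2 * ξ w) • Q.v + (2 * ξ Q.ε) • Q.a' w Q.v -
      (ξ Q.ε • Q.a' w Q.v + ξ w • Q.v - Q.δ (ξ ∘ₗ Q.ad w)) := by
    rw [← h]
    abel
  rw [h2]
  module

/-- the Killing form -/
noncomputable def K : C →ₗ[k] C →ₗ[k] k :=
  LinearMap.mk₂ k (fun w z => LinearMap.trace k C (Q.ad w ∘ₗ Q.ad z))
    (fun w w' z => by rw [map_add, LinearMap.add_comp, map_add])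
    (fun c w z => by rw [map_smul, LinearMap.smul_comp, map_smul])
    (fun w z z' => by rw [map_add, LinearMap.comp_add, map_add])
    (fun c w z => by rw [map_smul, LinearMap.comp_smul, map_smul])

theorem K_apply (w z : C) : Q.K w z = LinearMap.trace k C (Q.ad w ∘ₗ Q.ad z) := rfl

theorem K_symm (w z : C) : Q.K w z = Q.K z w := by
  rw [K_apply, K_apply]
  exact LinearMap.trace_mul_comm k (Q.ad w) (Q.ad z)

theorem K_ε : Q.K Q.ε = 0 := by
  apply LinearMap.ext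
  intro z
  rw [K_apply, Q.adε, LinearMap.zero_comp, map_zero, LinearMap.zero_apply]

theorem Kε (w : C) : Q.K w Q.ε = 0 := by
  rw [K_symm, K_ε, LinearMap.zero_apply]

theorem h4 (hcard : Fintype.card ι = 12) {w : C} (hw : Q.θ w = 0) :
    (10 : k) • Q.a w Q.v = Q.δ (Q.K w) := by
  set y := Q.a w Q.v with hy
  have e1 : ∀ i, Q.b (e.coord i) (Q.a (e i) y) = (2 : k) • y + (2 : k) • (e.coord i Q.ε • Q.a' (e i) y) -
      Q.a' (e i) (Q.b (e.coord i) y) := by
    intro i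
    have h := Q.h1 (e i) (e.coord i) y
    have hii : e.coord i (e i) = 1 := by simp
    rw [hii, mul_one] at h
    rw [smul_smul, ← h]
    abel
  have e2 : ∑ i, Q.a' (e i) (Q.b (e.coord i) y) = Q.δ (Q.K w) := by
    have e3 : ∀ i, Q.a' (e i) (Q.b (e.coord i) y) = e.coord i Q.ε • Q.a' (e i) (Q.a' w Q.v) +
        e.coord i w • Q.a' (e i) Q.v + (e.coord i (Q.ad w (e i)) • Q.v -
          Q.θ (e i) • Q.δ ((e.coord i) ∘ₗ Q.ad w) -
          Q.δ ((e.coord i) ∘ₗ Q.ad w ∘ₗ Q.ad (e i))) := by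
      intro i
      rw [hy, Q.hB hw, map_add, map_add, map_smul, map_smul]
      congr 1
      rw [Q.hA_all]
      have h0 : ((e.coord i) ∘ₗ Q.ad w) Q.ε = 0 := by
        rw [LinearMap.comp_apply, Q.ad_ε, map_zero]
      rw [h0, zero_smul, zero_add, LinearMap.comp_apply, LinearMap.comp_assoc]
    rw [Finset.sum_congr rfl (fun i _ => e3 i)]
    simp only [Finset.sum_add_distrib, Finset.sum_sub_distrib]
    have f1 : ∑ i, e.coord i Q.ε • Q.a' (e i) (Q.a' w Q.v) = -(Q.a' w Q.v) := by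
      have := sum_coord e (Q.a'.flip (Q.a' w Q.v)) Q.ε
      simp only [LinearMap.flip_apply] at this
      rw [this, Q.a'ε]
      rfl
    have f2 : ∑ i, e.coord i w • Q.a' (e i) Q.v = Q.a' w Q.v := by
      have := sum_coord e (Q.a'.flip Q.v) w
      simpa only [LinearMap.flip_apply] using this
    have f3 : ∑ i, e.coord i (Q.ad w (e i)) • Q.v = 0 := by
      rw [← Finset.sum_smul, ← tr_eq, Q.tr_ad, zero_smul]
    have f4 : ∑ i, Q.θ (e i) • Q.δ ((e.coord i) ∘ₗ Q.ad w) = 0 := by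
      have := sum_dual e (Q.δ ∘ₗ (LinearMap.lcomp k k (Q.ad w))) Q.θ
      simp only [LinearMap.comp_apply, LinearMap.lcomp_apply'] at this
      rw [this]
      have h0 : Q.θ ∘ₗ Q.ad w = 0 := by
        apply LinearMap.ext
        intro z
        simp [Q.θad]
      rw [h0, map_zero]
    have f5 : ∑ i, Q.δ ((e.coord i) ∘ₗ Q.ad w ∘ₗ Q.ad (e i)) = -Q.δ (Q.K w) := by
      rw [← map_sum, ← map_neg]
      congr 1
      apply LinearMap.ext
      intro z
      rw [LinearMap.sum_apply, LinearMap.neg_apply, K_apply, tr_eq e, ← Finset.sum_neg_distrib]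
      refine Finset.sum_congr rfl fun i _ => ?_
      simp only [LinearMap.comp_apply]
      rw [Q.ad_anti (e i) z, map_neg, map_neg]
    rw [f1, f2, f3, f4, f5]
    abel
  have f6 : ∑ i, e.coord i Q.ε • Q.a' (e i) y = -y := by
    have := sum_coord e (Q.a'.flip y) Q.ε
    simp only [LinearMap.flip_apply] at this
    rw [this, Q.a'ε]
    rfl
  have f7 : ∑ i, (2 : k) • (e.coord i Q.ε • Q.a' (e i) y) = (2 : k) • -y := by
    rw [← Finset.smul_sum, f6]
  have e4 := Q.h2 y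
  rw [Finset.sum_congr rfl (fun i _ => e1 i), Finset.sum_sub_distrib, Finset.sum_add_distrib, e2,
    f7, Finset.sum_const, Finset.card_univ, hcard] at e4
  have e5 : Q.δ (Q.K w) = (12 : ℕ) • ((2 : k) • y) + (2 : k) • -y - (12 : k) • y := by
    rw [← e4]
    abel
  rw [e5]
  module

theorem h5 (hcard : Fintype.card ι = 12) {w : C} (hw : Q.θ w = 0) {f : Dual k C}
    (hf : f Q.ε = 0) :
    Q.b f (Q.δ (Q.K w)) = (10 : k) • (f w • Q.v + Q.δ (f ∘ₗ Q.ad w)) := by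
  rw [← Q.h4 hcard hw, map_smul, Q.hB hw, hf, zero_smul, zero_add]

theorem eq_zero_of {x : C} (hx : Q.θ x = 0) (h : ∀ g : Dual k C, g Q.ε = 0 → g x = 0) : x = 0 := by
  refine (Module.forall_dual_apply_eq_zero_iff k x).1 fun ξ => ?_
  have h1 := h (ξ - ξ Q.ε • Q.θ) (by
    rw [LinearMap.sub_apply, LinearMap.smul_apply, Q.θε, smul_eq_mul, mul_one, sub_self])
  rw [LinearMap.sub_apply, LinearMap.smul_apply, hx, smul_zero, sub_zero] at h1
  exact h1

theorem K_nondeg [CharZero k] (hcard : Fintype.card ι = 12) {w : C} (hw : Q.θ w = 0)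
    (hK : Q.K w = 0) : w = 0 := by
  refine Q.eq_zero_of hw fun f hf => ?_
  have h := Q.h5 hcard hw hf
  rw [hK, map_zero, map_zero] at h
  have h10 : (10 : k) ≠ 0 := by norm_num
  have h2 := (smul_eq_zero.1 h.symm).resolve_left h10
  rw [← Q.δθ, ← map_smul, ← map_add] at h2
  have h3 : f w • Q.θ + f ∘ₗ Q.ad w = 0 := by
    apply Q.inj
    rw [h2, map_zero]
  have h6 := congrArg (fun g : Dual k C => g Q.ε) h3
  simp only [LinearMap.add_apply, LinearMap.smul_apply, LinearMap.comp_apply, Q.ad_ε, map_zero,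
    Q.θε, LinearMap.zero_apply, add_zero, smul_eq_mul, mul_one] at h6
  exact h6

theorem K_surj [CharZero k] [FiniteDimensional k C] (hcard : Fintype.card ι = 12) {f : Dual k C}
    (hf : f Q.ε = 0) : ∃ w : C, Q.θ w = 0 ∧ Q.K w = f := by
  let kap : C →ₗ[k] Dual k C := Q.K + Q.θ.smulRight Q.θ
  have hkap : ∀ x, kap x = Q.K x + Q.θ x • Q.θ := fun x => by
    simp [kap]
  have hinj : Function.Injective kap := by
    rw [← LinearMap.ker_eq_bot, LinearMap.ker_eq_bot']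
    intro x hx
    rw [hkap] at hx
    have h1 := congrArg (fun g : Dual k C => g Q.ε) hx
    simp only [LinearMap.add_apply, LinearMap.smul_apply, Q.Kε, Q.θε, LinearMap.zero_apply,
      zero_add, smul_eq_mul, mul_one] at h1
    rw [h1, zero_smul, add_zero] at hx
    exact Q.K_nondeg hcard h1 hx
  have hsurj : Function.Surjective kap :=
    (LinearMap.injective_iff_surjective_of_finrank_eq_finrank
      (Subspace.dual_finrank_eq (K := k) (V := C)).symm).1 hinj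
  obtain ⟨w, hw⟩ := hsurj f
  rw [hkap] at hw
  have h1 := congrArg (fun g : Dual k C => g Q.ε) hw
  simp only [LinearMap.add_apply, LinearMap.smul_apply, Q.Kε, Q.θε, hf,
    zero_add, smul_eq_mul, mul_one] at h1
  rw [h1, zero_smul, add_zero] at hw
  exact ⟨w, h1, hw⟩

/-! ### stability of the range of `δ` -/

theorem mem_b [CharZero k] [FiniteDimensional k C] (hcard : Fintype.card ι = 12)
    (ξ η : Dual k C) : Q.b ξ (Q.δ η) ∈ LinearMap.range Q.δ := by
  have hθ : ∀ η, Q.b Q.θ (Q.δ η) ∈ LinearMap.range Q.δ := by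
    intro η
    rw [Q.hD]
    exact add_mem (LinearMap.mem_range_self _ _) (LinearMap.mem_range_self _ _)
  have hf : ∀ f : Dual k C, f Q.ε = 0 → ∀ η, Q.b f (Q.δ η) ∈ LinearMap.range Q.δ := by
    intro f hf η
    obtain ⟨w, hw, hK⟩ := Q.K_surj hcard (f := η - η Q.ε • Q.θ) (by
      rw [LinearMap.sub_apply, LinearMap.smul_apply, Q.θε, smul_eq_mul, mul_one, sub_self])
    have h1 : η = η Q.ε • Q.θ + Q.K w := by
      rw [hK]
      abel
    rw [h1, map_add, map_smul, Q.δθ, map_add, map_smul, ← Q.hδ, Q.h5 hcard hw hf, ← Q.δθ]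
    refine add_mem (Submodule.smul_mem _ _ (LinearMap.mem_range_self _ _))
      (Submodule.smul_mem _ _ (add_mem (Submodule.smul_mem _ _ (LinearMap.mem_range_self _ _))
        (LinearMap.mem_range_self _ _)))
  have h1 : ξ = ξ Q.ε • Q.θ + (ξ - ξ Q.ε • Q.θ) := by abel
  rw [h1, map_add, map_smul, LinearMap.add_apply, LinearMap.smul_apply]
  refine add_mem (Submodule.smul_mem _ _ (hθ η)) (hf _ ?_ η)
  rw [LinearMap.sub_apply, LinearMap.smul_apply, Q.θε, smul_eq_mul, mul_one, sub_self]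

theorem mem_a'v [CharZero k] [FiniteDimensional k C] (hcard : Fintype.card ι = 12) {w : C}
    (hw : Q.θ w = 0) : Q.a' w Q.v ∈ LinearMap.range Q.δ := by
  have h10 : (10 : k) ≠ 0 := by norm_num
  have h1 : (10 : k) • Q.a' w Q.v = Q.b Q.θ (Q.δ (Q.K w)) := by
    rw [← Q.a'v hw, ← map_smul, Q.h4 hcard hw]
  have h2 : Q.a' w Q.v = (10 : k)⁻¹ • Q.b Q.θ (Q.δ (Q.K w)) := by
    rw [← h1, smul_smul, inv_mul_cancel₀ h10, one_smul]
  rw [h2]
  exact Submodule.smul_mem _ _ (Q.mem_b hcard _ _)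

theorem mem_a' [CharZero k] [FiniteDimensional k C] (hcard : Fintype.card ι = 12) {w : C}
    (hw : Q.θ w = 0) (η : Dual k C) : Q.a' w (Q.δ η) ∈ LinearMap.range Q.δ := by
  rw [Q.hA_all, ← Q.δθ, Q.δθ]
  refine sub_mem (sub_mem (add_mem (Submodule.smul_mem _ _ (Q.mem_a'v hcard hw))
    (Submodule.smul_mem _ _ ?_)) (Submodule.smul_mem _ _ (LinearMap.mem_range_self _ _)))
    (LinearMap.mem_range_self _ _)
  rw [← Q.δθ]
  exact LinearMap.mem_range_self _ _

theorem mem_ba [CharZero k] [FiniteDimensional k C] (hcard : Fintype.card ι = 12) (x : C)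
    (ξ η : Dual k C) : Q.b ξ (Q.a x (Q.δ η)) ∈ LinearMap.range Q.δ := by
  have hW : ∀ w, Q.θ w = 0 → Q.b ξ (Q.a w (Q.δ η)) ∈ LinearMap.range Q.δ := by
    intro w hw
    have h := Q.h1 w ξ (Q.δ η)
    have h2 : Q.b ξ (Q.a w (Q.δ η)) = (2 * ξ w) • Q.δ η + (2 * ξ Q.ε) • Q.a' w (Q.δ η) -
        Q.a' w (Q.b ξ (Q.δ η)) := by
      rw [← h]
      abel
    rw [h2]
    obtain ⟨η', hη'⟩ := Q.mem_b hcard ξ η
    rw [← hη']
    exact sub_mem (add_mem (Submodule.smul_mem _ _ (LinearMap.mem_range_self _ _))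
      (Submodule.smul_mem _ _ (Q.mem_a' hcard hw η))) (Q.mem_a' hcard hw η')
  have h1 : x = Q.θ x • Q.ε + (x - Q.θ x • Q.ε) := by abel
  rw [h1, map_add, map_smul, Q.aε, LinearMap.add_apply, LinearMap.smul_apply, Module.End.one_apply,
    map_add, map_smul]
  refine add_mem (Submodule.smul_mem _ _ (Q.mem_b hcard _ _)) (hW _ ?_)
  rw [map_sub, map_smul, Q.θε, smul_eq_mul, mul_one, sub_self]

end Core4

end LicciCF
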