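import Pool.Agent.Work.MP_a98e4e_ag.CF.Four.B

/-! # CF4, part c: the Clifford structure on the core -/

set_option autoImplicit false

open Module

namespace LicciCF

namespace Core4

variable {k C B : Type*} [Field k] [CharZero k] [AddCommGroup C] [Module k C]
  [FiniteDimensional k C] [AddCommGroup B]
  [Module k B] {ι : Type*} [Fintype ι] {e : Basis ι k C} (Q : Core4 k C B e)

/-- equation (6) -/
theorem eq6 (hcard : Fintype.card ι = 12)
    (hst : ∀ x u, u ∈ LinearMap.range Q.δ → Q.a x u ∈ LinearMap.range Q.δ)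
    {w u z : C} (hw : Q.θ w = 0) (hu : Q.θ u = 0) (hz : Q.θ z = 0) :
    (Q.K u w - Q.K u (Q.J w)) • z + (10 : k) • Q.ad (Q.ad w u) z =
      (2 * Q.K u z) • w - (Q.K w z + Q.K w (Q.J z)) • u + (10 : k) • Q.ad u (Q.ad w z) := by
  obtain ⟨η, hη⟩ := hst w _ (LinearMap.mem_range_self Q.δ (Q.K u))
  -- the scalar part of `η`
  have hKJε : ∀ y, ((Q.K y) ∘ₗ Q.J) Q.ε = 0 := by
    intro y
    rw [LinearMap.comp_apply, Q.Jε, map_zero]
  have hlam : η Q.ε = Q.K u w - Q.K u (Q.J w) := by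
    have h1 := Q.hC hw (Q.δ (Q.K u))
    rw [Q.hD, map_add, Q.hA_all w (Q.K u), Q.hA_all w ((Q.K u) ∘ₗ Q.J), hKJε, Q.Kε, hw, ← hη,
      Q.hD] at h1
    simp only [zero_smul, sub_zero, zero_add] at h1
    have h2 : Q.δ (η + η ∘ₗ Q.J) = Q.δ ((2 : k) • (Q.K u w • Q.θ - (Q.K u) ∘ₗ Q.ad w) -
        ((Q.K u w • Q.θ - (Q.K u) ∘ₗ Q.ad w) + (((Q.K u) ∘ₗ Q.J) w • Q.θ -
          ((Q.K u) ∘ₗ Q.J) ∘ₗ Q.ad w))) := by
      simp only [map_add, map_sub, map_smul, Q.δθ]
      exact h1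
    have h3 := congrArg (fun g : Dual k C => g Q.ε) (Q.inj h2)
    simp only [LinearMap.add_apply, LinearMap.sub_apply, LinearMap.smul_apply,
      LinearMap.comp_apply, Q.Jε, Q.ad_ε, Q.θε, map_zero, smul_eq_mul, mul_one, add_zero,
      sub_zero] at h3
    rw [h3]
    ring
  obtain ⟨h, hh, hKh⟩ := Q.K_surj hcard (f := η - η Q.ε • Q.θ) (by
    rw [LinearMap.sub_apply, LinearMap.smul_apply, Q.θε, smul_eq_mul, mul_one, sub_self])
  have hηe : η = η Q.ε • Q.θ + Q.K h := by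
    rw [hKh]
    abel
  -- the functional equation
  have hfun : ∀ g : Dual k C, g Q.ε = 0 →
      (2 * g w) • Q.K u - g u • (Q.K w + (Q.K w) ∘ₗ Q.J) - (10 * g (Q.ad u w)) • Q.θ +
        (10 : k) • (g ∘ₗ Q.ad u ∘ₗ Q.ad w) =
      η Q.ε • g + (10 * g h) • Q.θ + (10 : k) • (g ∘ₗ Q.ad h) := by
    intro g hg
    have h1 := Q.h1 w g (Q.δ (Q.K u))
    rw [hg, mul_zero, zero_smul, add_zero, Q.h5 hcard hu hg, map_smul, map_add, map_smul,
      Q.hA_all w (g ∘ₗ Q.ad u), hw, ← hη] at h1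
    have hg0 : (g ∘ₗ Q.ad u) Q.ε = 0 := by
      rw [LinearMap.comp_apply, Q.ad_ε, map_zero]
    rw [hg0] at h1
    have h2 : (10 : k) • Q.a' w Q.v = Q.δ (Q.K w) + Q.δ ((Q.K w) ∘ₗ Q.J) := by
      rw [← Q.a'v hw, ← map_smul, Q.h4 hcard hw, Q.hD]
    have h3 : Q.b g (Q.δ η) = η Q.ε • Q.δ g + (10 : k) • (g h • Q.v + Q.δ (g ∘ₗ Q.ad h)) := by
      conv_lhs => rw [hηe]
      rw [map_add, map_add, map_smul, map_smul, Q.δθ, ← Q.hδ, Q.h5 hcard hh hg]
    rw [h3] at h1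
    have h4 : (10 : k) • (g u • Q.a' w Q.v + ((0 : k) • Q.a' w Q.v + (g ∘ₗ Q.ad u) w • Q.v -
        (0 : k) • Q.δ (g ∘ₗ Q.ad u) - Q.δ ((g ∘ₗ Q.ad u) ∘ₗ Q.ad w))) =
        g u • (Q.δ (Q.K w) + Q.δ ((Q.K w) ∘ₗ Q.J)) + (10 : k) • ((g (Q.ad u w)) • Q.v -
          Q.δ (g ∘ₗ Q.ad u ∘ₗ Q.ad w)) := by
      rw [← h2, LinearMap.comp_assoc, LinearMap.comp_apply]
      module
    rw [h4] at h1
    apply Q.inj
    simp only [map_add, map_sub, map_smul, Q.δθ]
    have h5 : η Q.ε • Q.δ g + (10 : k) • (g h • Q.v + Q.δ (g ∘ₗ Q.ad h)) =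
        (2 * g w) • Q.δ (Q.K u) - (g u • (Q.δ (Q.K w) + Q.δ ((Q.K w) ∘ₗ Q.J)) +
          (10 : k) • ((g (Q.ad u w)) • Q.v - Q.δ (g ∘ₗ Q.ad u ∘ₗ Q.ad w))) := by
      rw [← h1]
      abel
    have h6 : η Q.ε • Q.δ g + (10 * g h) • Q.v + (10 : k) • Q.δ (g ∘ₗ Q.ad h) =
        η Q.ε • Q.δ g + (10 : k) • (g h • Q.v + Q.δ (g ∘ₗ Q.ad h)) := by
      module
    rw [h6, h5]
    module
  -- identification of `h`
  have hhe : h = Q.ad w u := by
    have h10 : (10 : k) ≠ 0 := by norm_num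
    have h0 : h - Q.ad w u = 0 := by
      refine Q.eq_zero_of (by rw [map_sub, hh, Q.θad, sub_zero]) fun g hg => ?_
      have h1 := congrArg (fun f : Dual k C => f Q.ε) (hfun g hg)
      simp only [LinearMap.add_apply, LinearMap.sub_apply, LinearMap.smul_apply,
        LinearMap.comp_apply, Q.Jε, Q.ad_ε, Q.θε, Q.Kε, hg, map_zero, smul_eq_mul, mul_one,
        mul_zero, add_zero, sub_zero, zero_sub, zero_add] at h1
      have h2 : (10 : k) * (g h + g (Q.ad u w)) = 0 := by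
        linear_combination -h1
      have h3 := (mul_eq_zero.1 h2).resolve_left h10
      rw [map_sub, Q.ad_anti w u, map_neg, sub_neg_eq_add]
      exact h3
    exact sub_eq_zero.1 h0
  -- evaluation at `z`
  rw [← sub_eq_zero]
  refine Q.eq_zero_of ?_ fun g hg => ?_
  · simp only [map_add, map_sub, map_smul, Q.θad, hz, hw, hu, smul_zero, add_zero, sub_zero]
  · have h1 := congrArg (fun f : Dual k C => f z) (hfun g hg)
    simp only [LinearMap.add_apply, LinearMap.sub_apply, LinearMap.smul_apply,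
      LinearMap.comp_apply, hz, smul_eq_mul, mul_zero, add_zero, sub_zero] at h1
    rw [hhe, hlam] at h1
    simp only [map_add, map_sub, map_smul, smul_eq_mul]
    linear_combination -h1

/-- `K(w, J w) = 0` -/
theorem KJ (hcard : Fintype.card ι = 12)
    (hst : ∀ x u, u ∈ LinearMap.range Q.δ → Q.a x u ∈ LinearMap.range Q.δ)
    {w : C} (hw : Q.θ w = 0) : Q.K w (Q.J w) = 0 := by
  have hK : ∀ u, Q.K (u - Q.θ u • Q.ε) = Q.K u := by
    intro u
    rw [map_sub, map_smul, Q.K_ε, smul_zero, sub_zero]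
  have hop : (Q.K.flip w - Q.K.flip (Q.J w)).smulRight w - (10 : k) • (Q.ad w ∘ₗ Q.ad w) =
      (2 : k) • (Q.K.flip w).smulRight w -
        (Q.K w w + Q.K w (Q.J w)) • (LinearMap.id - Q.θ.smulRight Q.ε) := by
    apply LinearMap.ext
    intro u
    have hu : Q.θ (u - Q.θ u • Q.ε) = 0 := by
      rw [map_sub, map_smul, Q.θε, smul_eq_mul, mul_one, sub_self]
    have h := Q.eq6 hcard hst hw hu hw
    rw [Q.ad_self w, map_zero, smul_zero, add_zero, hK, map_sub, map_smul, Q.ad_ε, smul_zero,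
      sub_zero, Q.ad_anti (Q.ad w u) w] at h
    simp only [LinearMap.sub_apply, LinearMap.smul_apply, LinearMap.smulRight_apply,
      LinearMap.flip_apply, LinearMap.comp_apply, LinearMap.id_apply]
    rw [smul_neg, ← sub_eq_add_neg] at h
    rw [h, smul_smul]
  have ht := congrArg (LinearMap.trace k C) hop
  simp only [map_sub, map_smul, LinearMap.trace_smulRight, LinearMap.trace_id,
    LinearMap.sub_apply, LinearMap.flip_apply, smul_eq_mul] at ht
  have hn : finrank k C = 12 := by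
    rw [finrank_eq_card_basis e, hcard]
  rw [← Q.K_apply w w, hn, Q.θε] at ht
  push_cast at ht
  have h10 : (10 : k) * Q.K w (Q.J w) = 0 := by
    rw [Q.K_symm w (Q.J w)] at ht ⊢
    linear_combination ht
  exact (mul_eq_zero.1 h10).resolve_left (by norm_num)

/-- equation (7) -/
theorem eq7 (hcard : Fintype.card ι = 12)
    (hst : ∀ x u, u ∈ LinearMap.range Q.δ → Q.a x u ∈ LinearMap.range Q.δ)
    {w : C} (hw : Q.θ w = 0) {u : C} (hu : Q.θ u = 0) :
    (10 : k) • Q.ad w (Q.ad w u) = Q.K w w • u - (Q.K u w + Q.K u (Q.J w)) • w := by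
  have h := Q.eq6 hcard hst hw hu hw
  rw [Q.ad_self w, map_zero, smul_zero, add_zero, Q.KJ hcard hst hw, add_zero,
    Q.ad_anti (Q.ad w u) w, smul_neg] at h
  have h2 : (10 : k) • Q.ad w (Q.ad w u) = (Q.K u w - Q.K u (Q.J w)) • w -
      ((2 * Q.K u w) • w - Q.K w w • u) := by
    rw [← h]
    abel
  rw [h2]
  module

/-- equation (8) -/
theorem eq8 (hcard : Fintype.card ι = 12)
    (hst : ∀ x u, u ∈ LinearMap.range Q.δ → Q.a x u ∈ LinearMap.range Q.δ)
    {w : C} (hw : Q.θ w = 0) {u : C} (hu : Q.θ u = 0) :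
    Q.K (Q.ad w u) w + Q.K (Q.ad w u) (Q.J w) = 0 := by
  by_cases hw0 : w = 0
  · rw [hw0]
    simp
  have h1 := Q.eq7 hcard hst hw (Q.θad w u)
  have h2 := congrArg (Q.ad w) (Q.eq7 hcard hst hw hu)
  rw [map_smul, map_sub, map_smul, map_smul, Q.ad_self, smul_zero, sub_zero, h1] at h2
  have h3 : (Q.K (Q.ad w u) w + Q.K (Q.ad w u) (Q.J w)) • w = 0 := by
    have : (Q.K (Q.ad w u) w + Q.K (Q.ad w u) (Q.J w)) • w =
        Q.K w w • Q.ad w u - (Q.K w w • Q.ad w u -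
          (Q.K (Q.ad w u) w + Q.K (Q.ad w u) (Q.J w)) • w) := by abel
    rw [this, h2, sub_self]
  exact (smul_eq_zero.1 h3).resolve_right hw0

/-- the operators `T_w` -/
noncomputable def Tw : C →ₗ[k] (C →ₗ[k] C) :=
  LinearMap.mk₂ k (fun w z => Q.ad w z + Q.θ z • w + ((10 : k)⁻¹ * (Q.K w z + Q.K z (Q.J w))) • Q.ε)
    (fun w w' z => by
      simp only [map_add, LinearMap.add_apply]
      module)
    (fun c w z => by
      simp only [map_smul, LinearMap.smul_apply, smul_eq_mul]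
      module)
    (fun w z z' => by
      simp only [map_add, LinearMap.add_apply]
      module)
    (fun c w z => by
      simp only [map_smul, LinearMap.smul_apply, smul_eq_mul]
      module)

theorem Tw_apply (w z : C) : Q.Tw w z = Q.ad w z + Q.θ z • w +
    ((10 : k)⁻¹ * (Q.K w z + Q.K z (Q.J w))) • Q.ε := rfl

theorem Tw_sq (hcard : Fintype.card ι = 12)
    (hst : ∀ x u, u ∈ LinearMap.range Q.δ → Q.a x u ∈ LinearMap.range Q.δ)
    {w : C} (hw : Q.θ w = 0) (z : C) : Q.Tw w (Q.Tw w z) = ((10 : k)⁻¹ * Q.K w w) • z := by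
  have h10 : (10 : k) ≠ 0 := by norm_num
  set z' := z - Q.θ z • Q.ε with hz'
  have hz0 : Q.θ z' = 0 := by
    rw [hz', map_sub, map_smul, Q.θε, smul_eq_mul, mul_one, sub_self]
  have hadz : Q.ad w z = Q.ad w z' := by
    rw [hz', map_sub, map_smul, Q.ad_ε, smul_zero, sub_zero]
  have hKz : Q.K z' = Q.K z := by
    rw [hz', map_sub, map_smul, Q.K_ε, smul_zero, sub_zero]
  have e7 := Q.eq7 hcard hst hw hz0
  have e8 := Q.eq8 hcard hst hw hz0
  rw [← hadz] at e7 e8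
  rw [hKz] at e7
  have e7' : Q.ad w (Q.ad w z) = (10 : k)⁻¹ • (Q.K w w • z' - (Q.K z w + Q.K z (Q.J w)) • w) := by
    rw [← e7, smul_smul, inv_mul_cancel₀ h10, one_smul]
  rw [Tw_apply, Tw_apply]
  simp only [map_add, map_smul, LinearMap.add_apply, LinearMap.smul_apply, Q.ad_self, Q.ad_ε,
    Q.θad, hw, Q.θε, Q.Kε, Q.K_ε, smul_zero, smul_eq_mul, mul_zero, mul_one,
    add_zero, zero_add]
  rw [Q.KJ hcard hst hw, e7', hz', mul_zero, add_zero, Q.K_symm w (Q.ad w z), Q.K_symm w z]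
  have e9 : Q.K (Q.ad w z) w + Q.θ z * Q.K w w + Q.K (Q.ad w z) (Q.J w) = Q.θ z * Q.K w w := by
    linear_combination e8
  rw [e9]
  module

/-- The conclusion of CF4 for a core. -/
theorem exists_W (hcard : Fintype.card ι = 12)
    (hst : ∀ x u, u ∈ LinearMap.range Q.δ → Q.a x u ∈ LinearMap.range Q.δ) :
    ∃ (W : Submodule k C) (K : W →ₗ[k] W →ₗ[k] k) (Tw : W →ₗ[k] (C →ₗ[k] C)),
      finrank k W = 11 ∧ (∀ w, (∀ w', K w w' = 0) → w = 0) ∧
      (∀ w w', K w w' = K w' w) ∧ ∀ w, Tw w ∘ₗ Tw w = K w w • LinearMap.id := by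
  have h10 : (10 : k)⁻¹ ≠ 0 := by norm_num
  refine ⟨LinearMap.ker Q.θ, (10 : k)⁻¹ • (Q.K.domRestrict₁₂ (LinearMap.ker Q.θ) (LinearMap.ker Q.θ)),
    Q.Tw ∘ₗ (LinearMap.ker Q.θ).subtype, ?_, ?_, ?_, ?_⟩
  · have h1 := LinearMap.finrank_range_add_finrank_ker Q.θ
    have h2 : LinearMap.range Q.θ = ⊤ := by
      rw [LinearMap.range_eq_top]
      intro c
      exact ⟨c • Q.ε, by rw [map_smul, Q.θε, smul_eq_mul, mul_one]⟩
    rw [h2, finrank_top, finrank_self, finrank_eq_card_basis e, hcard] at h1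
    omega
  · rintro ⟨w, hw⟩ h
    have hw' : Q.θ w = 0 := hw
    have h1 : Q.K w = 0 := by
      apply LinearMap.ext
      intro y
      have h2 := h ⟨y - Q.θ y • Q.ε, by
        rw [LinearMap.mem_ker, map_sub, map_smul, Q.θε, smul_eq_mul, mul_one, sub_self]⟩
      simp only [LinearMap.smul_apply, LinearMap.domRestrict₁₂_apply, smul_eq_mul, map_sub,
        map_smul, Q.Kε, mul_zero, sub_zero] at h2
      exact (mul_eq_zero.1 h2).resolve_left h10
    exact Subtype.ext (Q.K_nondeg hcard hw' h1)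
  · intro w w'
    simp only [LinearMap.smul_apply, LinearMap.domRestrict₁₂_apply]
    rw [Q.K_symm]
  · rintro ⟨w, hw⟩
    apply LinearMap.ext
    intro z
    exact Q.Tw_sq hcard hst (w := w) hw z

end Core4

end LicciCF
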