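import Pool.Agent.Work.MP_a98e4e_ag.CF.Four.C

/-! # CF4, part d: from a package to a core -/

set_option autoImplicit false

open Module

namespace LicciCF

section Rank

variable {k : Type*} [Field k] [CharZero k] {ι : Type*} [Fintype ι]

/-- the rank of the block operator -/
theorem Blk_rank {V : Type*} [AddCommGroup V] [Module k V] [FiniteDimensional k V]
    (Rr : ι → ι → (V →ₗ[k] V)) (h1 : ∀ i l u, ∑ j, Rr j l (Rr i j u) = (12 : k) • Rr i l u)
    (h2 : ∀ u, ∑ i, Rr i i u = (12 : k) • u) :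
    finrank k (LinearMap.range (Blk Rr)) = finrank k V := by
  apply idem_rank
  · intro u
    funext l
    rw [Blk_apply, Pi.smul_apply, Blk_apply, Finset.smul_sum]
    simp only [Blk_apply, map_sum]
    rw [Finset.sum_comm]
    exact Finset.sum_congr rfl fun i _ => h1 i l _
  · rw [trace_Blk, ← map_sum]
    have : ∑ i, Rr i i = (12 : k) • LinearMap.id := by
      apply LinearMap.ext
      intro u
      rw [LinearMap.sum_apply, h2, LinearMap.smul_apply, LinearMap.id_apply]
    rw [this, map_smul, LinearMap.trace_id, smul_eq_mul]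

end Rank

namespace Dat

variable {k C B : Type*} [Field k] [CharZero k] [AddCommGroup C] [Module k C] [AddCommGroup B]
  [Module k B] [FiniteDimensional k C] [FiniteDimensional k B] (P : Dat k C B)

/-- `R` as a bilinear map -/
noncomputable def Rl : C →ₗ[k] Dual k C →ₗ[k] (B →ₗ[k] B) :=
  LinearMap.mk₂ k P.R
    (fun x x' ξ => by
      simp only [R, map_add, LinearMap.add_apply]
      module)
    (fun c x ξ => by
      simp only [R, map_smul, LinearMap.smul_apply, smul_eq_mul]
      module)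
    (fun x ξ ξ' => by
      simp only [R, map_add, LinearMap.add_apply]
      module)
    (fun c x ξ => by
      simp only [R, map_smul, LinearMap.smul_apply, smul_eq_mul]
      module)

theorem Rl_apply (x : C) (ξ : Dual k C) : P.Rl x ξ = P.R x ξ := rfl

theorem R_ap4 (x : C) (ξ : Dual k C) (u : B) : P.R x ξ u = ξ x • u + P.σ x ξ u := rfl

variable {P}

theorem R_inj {ι : Type} [Fintype ι] (e : Basis ι k C) (hP : P.IsPkg)
    (hR : ∀ u : B, ∑ i, P.R (e i) (e.coord i) u = (12 : k) • u) {ε : C} (hε : P.IsEps ε)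
    {w : B} (hw : ∀ ξ, P.R ε ξ w = 0) : w = 0 := by
  have h1 : ∀ (i l : ι) (u : B), ∑ j, P.R (e j) (e.coord l) (P.R (e i) (e.coord j) u) =
      (12 : k) • P.R (e i) (e.coord l) u := by
    intro i l u
    have h := congrArg (fun f : B →ₗ[k] B => f u) (hP.d1 ι e (e i) (e.coord l))
    simpa using h
  have hr := Blk_rank (fun i j => P.R (e i) (e.coord j)) h1 hR
  let jj : B →ₗ[k] (ι → B) := LinearMap.pi (fun j => P.R ε (e.coord j))
  have hsub : LinearMap.range (Blk (fun i j => P.R (e i) (e.coord j))) ≤ LinearMap.range jj := by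
    rintro _ ⟨u, rfl⟩
    choose w hw using fun i => hε.e3 (e i) (u i)
    refine ⟨∑ i, w i, ?_⟩
    funext l
    rw [Blk_apply]
    simp only [jj, LinearMap.pi_apply, map_sum]
    exact Finset.sum_congr rfl fun i _ => (hw i _).symm
  have h2 : finrank k (LinearMap.range jj) = finrank k B := by
    apply le_antisymm (LinearMap.finrank_range_le jj)
    rw [← hr]
    exact Submodule.finrank_mono hsub
  have hinj := inj_of_onto jj h2
  apply hinj
  rw [map_zero]
  funext l
  exact hw _

/-- the map `a` -/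
theorem exists_a {ι : Type} [Fintype ι] (e : Basis ι k C) (hP : P.IsPkg)
    (hR : ∀ u : B, ∑ i, P.R (e i) (e.coord i) u = (12 : k) • u) {ε : C} (hε : P.IsEps ε) :
    ∃ a : C →ₗ[k] End k B, ∀ x ξ u, P.R x ξ u = P.R ε ξ (a x u) := by
  have hker : LinearMap.ker ((P.Rl ε).flip) = ⊥ := by
    rw [LinearMap.ker_eq_bot']
    intro w hw
    refine R_inj e hP hR hε (w := w) fun ξ => ?_
    have := congrArg (fun f : Dual k C →ₗ[k] B => f ξ) hw
    simpa [Rl_apply] using this
  obtain ⟨L, hL⟩ := LinearMap.exists_leftInverse_of_injective _ hker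
  refine ⟨LinearMap.mk₂ k (fun x u => L ((P.Rl x).flip u)) ?_ ?_ ?_ ?_, ?_⟩
  · intro x x' u
    have : (P.Rl (x + x')).flip u = (P.Rl x).flip u + (P.Rl x').flip u := by
      apply LinearMap.ext
      intro ξ
      simp
    rw [this, map_add]
  · intro c x u
    have : (P.Rl (c • x)).flip u = c • (P.Rl x).flip u := by
      apply LinearMap.ext
      intro ξ
      simp
    rw [this, map_smul]
  · intro x u u'
    rw [map_add, map_add]
  · intro c x u
    rw [map_smul, map_smul]
  · intro x ξ u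
    obtain ⟨w, hw⟩ := hε.e3 x u
    have h1 : (P.Rl x).flip u = (P.Rl ε).flip w := by
      apply LinearMap.ext
      intro ξ
      simp only [LinearMap.flip_apply, Rl_apply]
      exact hw ξ
    rw [LinearMap.mk₂_apply, h1]
    have h2 : L ((P.Rl ε).flip w) = w := by
      have := congrArg (fun f : B →ₗ[k] B => f w) hL
      simpa using this
    rw [h2]
    exact hw ξ

/-- the opposite of the adjoint -/
theorem exists_a' (hP : P.IsPkg) (a : C →ₗ[k] End k B) :
    ∃ a' : C →ₗ[k] End k B, ∀ x u w, P.ω (a' x u) w = -P.ω u (a x w) := by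
  have hanti : ∀ u w, P.ω u w = -P.ω w u := by
    intro u w
    have h := hP.alt (u + w)
    simp only [map_add, LinearMap.add_apply, hP.alt, zero_add, add_zero] at h
    exact eq_neg_of_add_eq_zero_right h
  have hnd : LinearMap.BilinForm.Nondegenerate P.ω :=
    ⟨fun u hu => hP.nondeg u hu, fun u hu => hP.nondeg u fun w => by
      rw [hanti, hu w, neg_zero]⟩
  let D := LinearMap.BilinForm.toDual P.ω hnd
  have hD : ∀ u w, D u w = P.ω u w := fun u w => rfl
  refine ⟨LinearMap.mk₂ k (fun x u => -D.symm ((D u) ∘ₗ (a x))) ?_ ?_ ?_ ?_, ?_⟩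
  · intro x x' u
    rw [map_add, LinearMap.comp_add, map_add, neg_add]
  · intro c x u
    rw [map_smul, LinearMap.comp_smul, map_smul, smul_neg]
  · intro x u u'
    rw [map_add, LinearMap.add_comp, map_add, neg_add]
  · intro c x u
    rw [map_smul, LinearMap.smul_comp, map_smul, smul_neg]
  · intro x u w
    rw [LinearMap.mk₂_apply, map_neg, LinearMap.neg_apply, ← hD, LinearEquiv.apply_symm_apply,
      LinearMap.comp_apply, hD]

/-- The bracket attached to `θ`. -/
theorem exists_br (hP : P.IsPkg) {ε : C} (hε : P.IsEps ε) {θ : Dual k C} (hθ : θ ε = 1) :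
    ∃ br : C →ₗ[k] C →ₗ[k] C, (∀ x y, P.S x y = P.S ε (br x y)) ∧ (∀ x y, θ (br x y) = 0) ∧
      (∀ x, br x x = 0) ∧ (∀ y, br ε y = y - θ y • ε) := by
  let M : C →ₗ[k] (Dual k C →ₗ[k] C) × k := (P.S ε).prod θ
  have hM : ∀ y, M y = (P.S ε y, θ y) := fun y => rfl
  have hker : LinearMap.ker M = ⊥ := by
    rw [LinearMap.ker_eq_bot']
    intro y hy
    rw [hM, Prod.mk_eq_zero] at hy
    obtain ⟨c, hc⟩ := hε.e1 y hy.1
    have h2 := hy.2
    rw [hc, map_smul, hθ, smul_eq_mul, mul_one] at h2
    rw [hc, h2, zero_smul]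
  obtain ⟨L, hL⟩ := LinearMap.exists_leftInverse_of_injective _ hker
  have hLM : ∀ y, L (M y) = y := by
    intro y
    have := congrArg (fun f : C →ₗ[k] C => f y) hL
    simpa using this
  have hred : ∀ z, M (z - θ z • ε) = (P.S ε z, 0) := by
    intro z
    rw [hM, map_sub, map_smul, hP.S_alt, smul_zero, sub_zero, map_sub, map_smul, hθ, smul_eq_mul,
      mul_one, sub_self]
  let g : (Dual k C →ₗ[k] C) →ₗ[k] C := L ∘ₗ LinearMap.inl k (Dual k C →ₗ[k] C) k
  have hg : ∀ f, g f = L (f, 0) := fun f => rfl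
  refine ⟨LinearMap.mk₂ k (fun x y => g (P.S x y))
    (fun x x' y => by simp only [map_add, LinearMap.add_apply])
    (fun c x y => by simp only [map_smul, LinearMap.smul_apply])
    (fun x y y' => by simp only [map_add])
    (fun c x y => by simp only [map_smul]), ?_, ?_, ?_, ?_⟩
  · intro x y
    obtain ⟨z, hz⟩ := hε.e2 x y
    rw [LinearMap.mk₂_apply, hg, hz, ← hred, hLM, map_sub, map_smul, hP.S_alt, smul_zero, sub_zero]
  · intro x y
    obtain ⟨z, hz⟩ := hε.e2 x y
    rw [LinearMap.mk₂_apply, hg, hz, ← hred, hLM, map_sub, map_smul, hθ, smul_eq_mul, mul_one,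
      sub_self]
  · intro x
    rw [LinearMap.mk₂_apply, hP.S_alt, map_zero]
  · intro y
    rw [LinearMap.mk₂_apply, hg, ← hred, hLM]

/-- relation (dd) -/
theorem dd (hP : P.IsPkg) {δ : Dual k C →ₗ[k] B} {del : B →ₗ[k] C} (hd : P.IsDer δ del)
    (x : C) (ξ η : Dual k C) :
    P.σ x ξ (δ η) + δ (η ∘ₗ P.T x ξ) = P.R x η (δ ξ) := by
  rw [← sub_eq_zero]
  apply hP.nondeg
  intro u
  have h1 := hd.dq x u ξ η
  have h2 := hd.adj (η ∘ₗ P.T x ξ) u
  have h3 := hd.adj ξ u
  have h4 : (η ∘ₗ P.T x ξ) (del u) = 2 * ξ (del u) * η x - ξ x * η (del u) -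
      η (P.S x (del u) ξ) := by
    simp only [T, LinearMap.comp_apply, LinearMap.sub_apply, LinearMap.smul_apply,
      LinearMap.smulRight_apply, LinearMap.id_apply, LinearMap.flip_apply, map_sub, map_smul,
      smul_eq_mul]
    ring
  simp only [R_ap4, map_sub, map_add, map_smul, LinearMap.sub_apply, LinearMap.add_apply,
    LinearMap.smul_apply, smul_eq_mul]
  linear_combination (-1 : k) * h2 + h4 - h1 + (η x) * h3

end Dat

end LicciCF
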